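import Pool.Agent.H35.RO.Low

/-!
MP_ba3460_lc, linear exponent in the dense range (/team-store/H80_RLD.md, (7)): lower bounds for the weights of the
servers (helper35).
-/

set_option autoImplicit false
set_option linter.unusedSectionVars false

open Finset

namespace Pool.Agent.H35.RO

open Pool.Agent.H82.RD

variable {L g : ℕ} {D : ℕ} {T : Finset (Fin L)} {s : Fin L → Fin g}

/-- `(X / m) ^ m` increases for `m ≤ X / 3`. -/
lemma pow_incr {X : ℝ} {m t : ℕ} (hm : 1 ≤ m) (hmt : m ≤ t) (hX : 3 * (t : ℝ) ≤ X) :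
    (X / m) ^ m ≤ (X / t) ^ t := by
  induction t, hmt using Nat.le_induction with
  | base => exact le_rfl
  | succ t ht ih =>
    have ht0 : (0 : ℝ) < t := by exact_mod_cast (by omega : 0 < t)
    push_cast at hX ⊢
    have hX0 : 0 < X := by linarith
    refine (ih (by linarith)).trans ?_
    have h1 : (1 + 1 / (t : ℝ)) ^ t ≤ 3 := by
      have h2 := Real.add_one_le_exp (1 / (t : ℝ))
      have h3 : (1 + 1 / (t : ℝ)) ^ t ≤ Real.exp (1 / (t : ℝ)) ^ t := by
        refine pow_le_pow_left₀ (by positivity) ?_ t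
        linarith
      rw [← Real.exp_nat_mul] at h3
      have h4 : (t : ℝ) * (1 / t) = 1 := by field_simp
      rw [h4] at h3
      have h5 := Real.exp_one_lt_d9
      linarith
    have h2 : (X / t) ^ t = (X / (t + 1)) ^ t * (1 + 1 / (t : ℝ)) ^ t := by
      rw [← mul_pow]
      congr 1
      field_simp
    rw [h2, pow_succ]
    refine mul_le_mul_of_nonneg_left ?_ (by positivity)
    refine h1.trans ?_
    rw [le_div_iff₀ (by linarith)]
    exact hX

lemma pow_pred_le_zz (D : ℕ) {e : ℕ} (he : 1 ≤ e) : D ^ (e - 1) ≤ zz D e := by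
  obtain ⟨e', rfl⟩ : ∃ e', e = e' + 1 := ⟨e - 1, by omega⟩
  rw [Lvl_zz_succ, Nat.add_sub_cancel]
  omega

/-- The weight in terms of the levels. -/
theorem wg_ge (hD : 1 ≤ D) (hL : 1 ≤ L) {i lam : ℕ} (h1 : 1 ≤ lam) (h2 : lam ≤ D ^ i)
    (T : Finset (Fin L)) (s : Fin L → Fin g) :
    1 ≤ wg T s * ((2 * (L : ℝ) / lam) ^ T.card *
      (D : ℝ) ^ (∑ l ∈ T, (i + 1 - lv D (ld T s l (s l))))) := by
  have hL0 : (0 : ℝ) < L := by exact_mod_cast hL
  have hl0 : (0 : ℝ) < lam := by exact_mod_cast h1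
  have hD0 : (0 : ℝ) < D := by exact_mod_cast hD
  unfold wg
  rw [← prod_const, ← prod_pow_eq_pow_sum, ← prod_mul_distrib, ← prod_mul_distrib]
  have h1p : ∀ (S' : Finset (Fin L)) (F : Fin L → ℝ), (∀ j ∈ S', 1 ≤ F j) → 1 ≤ ∏ j ∈ S', F j := by
    intro S' F hF
    calc (1 : ℝ) = ∏ _j ∈ S', (1 : ℝ) := by rw [prod_const_one]
      _ ≤ ∏ j ∈ S', F j := prod_le_prod (fun _ _ => zero_le_one) hF
  refine h1p _ _ fun l _ => ?_
  set m := ld T s l (s l) with hm
  set v := lv D m with hv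
  have e1 : ((m : ℝ) + 1) / (2 * L) * (2 * (L : ℝ) / lam * (D : ℝ) ^ (i + 1 - v)) =
      ((m : ℝ) + 1) * (D : ℝ) ^ (i + 1 - v) / lam := by
    field_simp
  rw [e1, le_div_iff₀ hl0, one_mul]
  have h3 : lam ≤ (m + 1) * D ^ (i + 1 - v) := by
    refine h2.trans ?_
    have h4 : zz D v ≤ m := (lv_iff hD v m).1 le_rfl
    rcases Nat.eq_zero_or_pos v with h5 | h5
    · rw [h5, Nat.sub_zero]
      calc D ^ i ≤ D ^ (i + 1) := Nat.pow_le_pow_right hD (Nat.le_succ _)
        _ ≤ (m + 1) * D ^ (i + 1) := Nat.le_mul_of_pos_left _ (Nat.succ_pos _)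
    · have h6 := (pow_pred_le_zz D h5).trans h4
      calc D ^ i ≤ D ^ (v - 1) * D ^ (i + 1 - v) := by
            rw [← pow_add]
            exact Nat.pow_le_pow_right hD (by omega)
        _ ≤ (m + 1) * D ^ (i + 1 - v) := Nat.mul_le_mul_right _ (by omega)
  exact_mod_cast h3

/-- The sum of the levels below `i`. -/
theorem lev_sum {i A : ℕ}
    (h : ∀ i' ≤ i, (Tt D T s i' \ Tt D T s (i' + 1)).card * 2 ^ i ≤ 2 ^ i' * A) :
    ∑ l ∈ T, (i + 1 - lv D (ld T s l (s l))) ≤ 4 * A := by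
  have h1 : ∀ l ∈ T, i + 1 - lv D (ld T s l (s l)) =
      ∑ i' ∈ range (i + 1), if l ∈ T \ Tt D T s (i' + 1) then 1 else 0 := by
    intro l hl
    rw [← sum_filter, sum_const, smul_eq_mul, mul_one]
    have h2 : (range (i + 1)).filter (fun i' => l ∈ T \ Tt D T s (i' + 1)) =
        Ico (lv D (ld T s l (s l))) (i + 1) := by
      ext i'
      rw [mem_filter, mem_range, mem_Ico, mem_sdiff]
      unfold Tt
      rw [mem_filter]
      constructor
      · rintro ⟨h3, h4, h5⟩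
        refine ⟨?_, h3⟩
        by_contra hc
        exact h5 ⟨h4, by omega⟩
      · rintro ⟨h3, h4⟩
        exact ⟨h4, hl, fun h5 => by have := h5.2; omega⟩
    rw [h2, Nat.card_Ico]
  rw [sum_congr rfl h1, sum_comm]
  have h2 : ∀ i' ∈ range (i + 1), (∑ l ∈ T, if l ∈ T \ Tt D T s (i' + 1) then 1 else 0) * 2 ^ i ≤
      2 ^ (i' + 1) * A := by
    intro i' hi'
    rw [← sum_filter, sum_const, smul_eq_mul, mul_one]
    have h3 : T.filter (fun l => l ∈ T \ Tt D T s (i' + 1)) = T \ Tt D T s (i' + 1) := by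
      ext l
      rw [mem_filter, mem_sdiff]
      tauto
    rw [h3, ← sum_G, sum_mul]
    calc ∑ i_1 ∈ range (i' + 1), (Tt D T s i_1 \ Tt D T s (i_1 + 1)).card * 2 ^ i
        ≤ ∑ i_1 ∈ range (i' + 1), 2 ^ i_1 * A :=
          sum_le_sum fun j hj => h j (by have := mem_range.1 hj; have := mem_range.1 hi'; omega)
      _ ≤ 2 ^ (i' + 1) * A := by
          rw [← sum_mul]
          refine Nat.mul_le_mul_right _ ?_
          have h3 : ∀ n : ℕ, ∑ i ∈ range n, 2 ^ i ≤ 2 ^ n := by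
            intro n
            induction n with
            | zero => simp
            | succ n ih => rw [sum_range_succ, pow_succ]; omega
          exact h3 _
  have h3 : (∑ i' ∈ range (i + 1), ∑ l ∈ T, if l ∈ T \ Tt D T s (i' + 1) then 1 else 0) * 2 ^ i ≤
      (4 * A) * 2 ^ i := by
    rw [sum_mul]
    refine (sum_le_sum h2).trans ?_
    rw [← sum_mul]
    have h4 : ∀ n : ℕ, ∑ i ∈ range n, 2 ^ (i + 1) ≤ 2 ^ (n + 1) := by
      intro n
      induction n with
      | zero => simp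
      | succ n ih => rw [sum_range_succ, pow_succ 2 (n + 1)]; omega
    calc (∑ i' ∈ range (i + 1), 2 ^ (i' + 1)) * A ≤ 2 ^ (i + 1 + 1) * A :=
          Nat.mul_le_mul_right _ (h4 _)
      _ = 4 * A * 2 ^ i := by rw [pow_succ, pow_succ]; ring
  exact Nat.le_of_mul_le_mul_right h3 (by positivity)

/-- The cost of the weight in a moment of order `2 κ lam`. -/
theorem wg_cost (hD : 1 ≤ D) (hL : 1 ≤ L) {i lam t0 A κ : ℕ} (h1 : 1 ≤ lam) (h2 : lam ≤ D ^ i)
    (h3 : lam ≤ t0) (h4 : 3 * t0 ≤ 2 * L) (T : Finset (Fin L)) (s : Fin L → Fin g)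
    (h : ∀ i' ≤ i, (Tt D T s i' \ Tt D T s (i' + 1)).card * 2 ^ i ≤ 2 ^ i' * A) :
    (1 / wg T s) ^ (2 * (κ * lam)) ≤
      ((2 * (L : ℝ) / t0) ^ t0) ^ (2 * κ * T.card) * (D : ℝ) ^ (8 * κ * t0 * A) := by
  have hw := wg_pos hL T s
  have hl0 : (0 : ℝ) < lam := by exact_mod_cast h1
  have hL0 : (0 : ℝ) < L := by exact_mod_cast hL
  have hD1 : (1 : ℝ) ≤ D := by exact_mod_cast hD
  have h5 := wg_ge hD hL h1 h2 T s
  have h6 : 1 / wg T s ≤ (2 * (L : ℝ) / lam) ^ T.card *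
      (D : ℝ) ^ (∑ l ∈ T, (i + 1 - lv D (ld T s l (s l)))) := by
    rw [div_le_iff₀ hw, mul_comm]
    exact h5
  have h7 : 1 / wg T s ≤ (2 * (L : ℝ) / lam) ^ T.card * (D : ℝ) ^ (4 * A) := by
    refine h6.trans (mul_le_mul_of_nonneg_left ?_ (by positivity))
    exact pow_le_pow_right₀ hD1 (lev_sum h)
  refine (pow_le_pow_left₀ (by positivity) h7 _).trans ?_
  rw [mul_pow]
  refine mul_le_mul ?_ ?_ (by positivity) (by positivity)
  · have h8 : ((2 * (L : ℝ) / lam) ^ T.card) ^ (2 * (κ * lam)) =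
        ((2 * (L : ℝ) / lam) ^ lam) ^ (2 * κ * T.card) := by
      rw [← pow_mul, ← pow_mul]
      congr 1
      ring
    rw [h8]
    refine pow_le_pow_left₀ (by positivity) ?_ _
    refine pow_incr h1 h3 ?_
    exact_mod_cast h4
  · rw [← pow_mul]
    refine pow_le_pow_right₀ hD1 ?_
    calc 4 * A * (2 * (κ * lam)) = 8 * κ * lam * A := by ring
      _ ≤ 8 * κ * t0 * A := by gcongr

end Pool.Agent.H35.RO
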