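import Pool.Agent.H35.RO.Low

/-!
MP_ba3460_lc, linear exponent in the dense range (/team-store/H80_RLD.md, (ID) and (F3)): boxes on all rows in terms
of the fully active profiles, with the weights of the servers (helper35; the expansion is helper45's, H82/RD/Vb).
-/

set_option autoImplicit false
set_option linter.unusedSectionVars false

open Finset

namespace Pool.Agent.H35.RO

open Pool.Agent.H82.RD

variable {ν ι : Type} [Fintype ν] [DecidableEq ν] {L g : ℕ}

private lemma af_step (key : Fin g → ℕ) (H : Fin g → ℝ) (C : Finset (Fin g)) :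
    ∏ j ∈ C, (1 + H j) = 1 + ∑ j ∈ C, H j *
      ∏ j' ∈ C ∩ univ.filter (fun j' => key j < key j' ∨ (key j = key j' ∧ j < j')),
        (1 + H j') := by
  classical
  refine Finset.induction_on_min_value (fun j => toLex (key j, j)) C ?_ ?_
  · simp
  · intro a s ha hmin ih
    have hlt : ∀ x ∈ s, key a < key x ∨ (key a = key x ∧ a < x) := by
      intro x hx
      have h1 := hmin x hx
      rw [Prod.Lex.toLex_le_toLex] at h1
      rcases h1 with h1 | ⟨h1, h2⟩
      · exact Or.inl h1
      · refine Or.inr ⟨h1, lt_of_le_of_ne h2 ?_⟩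
        rintro rfl
        exact ha hx
    have e1 : insert a s ∩ univ.filter
        (fun j' => key a < key j' ∨ (key a = key j' ∧ a < j')) = s := by
      ext z
      simp only [mem_inter, mem_insert, mem_filter, mem_univ, true_and]
      constructor
      · rintro ⟨rfl | hz, h⟩
        · rcases h with h | h
          · exact absurd h (lt_irrefl _)
          · exact absurd h.2 (lt_irrefl _)
        · exact hz
      · intro hz
        exact ⟨Or.inr hz, hlt z hz⟩
    have e2 : ∀ j ∈ s, insert a s ∩ univ.filter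
        (fun j' => key j < key j' ∨ (key j = key j' ∧ j < j')) =
        s ∩ univ.filter (fun j' => key j < key j' ∨ (key j = key j' ∧ j < j')) := by
      intro j hj
      ext z
      simp only [mem_inter, mem_insert, mem_filter, mem_univ, true_and]
      constructor
      · rintro ⟨rfl | hz, h⟩
        · exfalso
          rcases hlt j hj with h1 | ⟨h1, h2⟩ <;> rcases h with h3 | ⟨h3, h4⟩
          · omega
          · omega
          · omega
          · exact absurd h2 (not_lt_of_gt h4)
        · exact ⟨hz, h⟩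
      · rintro ⟨hz, h⟩
        exact ⟨Or.inr hz, h⟩
    rw [prod_insert ha, sum_insert ha, e1]
    have e3 : ∑ j ∈ s, H j * ∏ j' ∈ insert a s ∩ univ.filter
        (fun j' => key j < key j' ∨ (key j = key j' ∧ j < j')), (1 + H j') =
        ∑ j ∈ s, H j * ∏ j' ∈ s ∩ univ.filter
        (fun j' => key j < key j' ∨ (key j = key j' ∧ j < j')), (1 + H j') :=
      sum_congr rfl fun j hj => by rw [e2 j hj]
    rw [e3]
    linear_combination ih

private lemma bx_eq (G : SimpleGraph ν) (M : ℝ) (C : Finset (Fin g)) (v : ν) (yo : Fin g → ν) :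
    bx G M C v yo = ∏ j ∈ C, (1 + HH G M v (yo j)) := by
  unfold bx HH
  exact prod_congr rfl fun j _ => by ring

private lemma bx_step (G : SimpleGraph ν) (M : ℝ) (D : ℕ) (T1 : Finset (Fin L))
    (s : Fin L → Fin g) (a : Fin L) (C : Finset (Fin g)) (v : ν) (yo : Fin g → ν) :
    bx G M C v yo = 1 + ∑ j ∈ C, rf G M v j (C ∩ af D T1 s a j) yo := by
  rw [bx_eq, af_step (fun j => lv D (ld T1 s a j))]
  congr 1
  refine sum_congr rfl fun j _ => ?_
  unfold rf
  rw [bx_eq]
  rfl

lemma ld_upd {T1 : Finset (Fin L)} {s : Fin L → Fin g} {a : Fin L}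
    (hT : ∀ l ∈ T1, l < a) (j : Fin g) {l : Fin L} (hl : l ≤ a) (j' : Fin g) :
    ld (insert a T1) (Function.update s a j) l j' = ld T1 s l j' := by
  unfold ld
  congr 1
  ext l'
  simp only [mem_filter, mem_insert]
  constructor
  · rintro ⟨rfl | h1, h2, h3⟩
    · exact absurd h2 (not_lt_of_ge hl)
    · rw [Function.update_of_ne (hT l' h1).ne] at h3
      exact ⟨h1, h2, h3⟩
  · rintro ⟨h1, h2, h3⟩
    refine ⟨Or.inr h1, h2, ?_⟩
    rw [Function.update_of_ne (hT l' h1).ne]
    exact h3

lemma af_upd {D : ℕ} {T1 : Finset (Fin L)} {s : Fin L → Fin g} {a : Fin L}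
    (hT : ∀ l ∈ T1, l < a) (j : Fin g) {l : Fin L} (hl : l ≤ a) (j0 : Fin g) :
    af D (insert a T1) (Function.update s a j) l j0 = af D T1 s l j0 := by
  unfold af
  simp only [ld_upd hT j hl]

private lemma row_step (G : SimpleGraph ν) (M : ℝ) (D : ℕ) {T1 : Finset (Fin L)}
    (s : Fin L → Fin g) {a : Fin L} (hT : ∀ l ∈ T1, l < a) (C : Fin L → Finset (Fin g))
    (x : Fin L → ν) (yo : Fin g → ν) :
    (∏ l ∈ T1, rf G M (x l) (s l) (C l ∩ af D T1 s l (s l)) yo) * bx G M (C a) (x a) yo =
      (∏ l ∈ T1, rf G M (x l) (s l) (C l ∩ af D T1 s l (s l)) yo) +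
      ∑ j ∈ C a, ∏ l ∈ insert a T1, rf G M (x l) (Function.update s a j l)
        (C l ∩ af D (insert a T1) (Function.update s a j) l (Function.update s a j l)) yo := by
  have ha : a ∉ T1 := fun h => lt_irrefl _ (hT a h)
  rw [bx_step G M D T1 s a, mul_add, mul_one, mul_sum]
  congr 1
  refine sum_congr rfl fun j _ => ?_
  rw [prod_insert ha, Function.update_self, af_upd hT j le_rfl, mul_comm]
  congr 1
  refine prod_congr rfl fun l hl => ?_
  rw [Function.update_of_ne (hT l hl).ne, af_upd hT j (hT l hl).le]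

private lemma st_step (G : SimpleGraph ν) (M : ℝ) (D : ℕ) {T1 : Finset (Fin L)}
    (s : Fin L → Fin g) {a : Fin L} (hT : ∀ l ∈ T1, l < a) (C : Fin L → Finset (Fin g))
    (x : Fin L → ν) (y : ι → Fin g → ν) (F : Finset ι) {R : Finset (Fin L)} (ha : a ∉ R) :
    ∑ o ∈ F, (∏ l ∈ T1, rf G M (x l) (s l) (C l ∩ af D T1 s l (s l)) (y o)) *
        ∏ l ∈ insert a R, bx G M (C l) (x l) (y o) =
      (∑ o ∈ F, (∏ l ∈ T1, rf G M (x l) (s l) (C l ∩ af D T1 s l (s l)) (y o)) *
        ∏ l ∈ R, bx G M (C l) (x l) (y o)) +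
      ∑ j ∈ C a, ∑ o ∈ F, (∏ l ∈ insert a T1, rf G M (x l) (Function.update s a j l)
        (C l ∩ af D (insert a T1) (Function.update s a j) l (Function.update s a j l)) (y o)) *
        ∏ l ∈ R, bx G M (C l) (x l) (y o) := by
  rw [sum_comm, ← sum_add_distrib]
  refine sum_congr rfl fun o _ => ?_
  rw [prod_insert ha, ← mul_assoc, row_step G M D s hT C x (y o), add_mul, sum_mul]

/-- The weight of one more row. -/
lemma wg_insert {T : Finset (Fin L)} {s : Fin L → Fin g} {a : Fin L} (hT : ∀ l ∈ T, l < a)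
    (j : Fin g) :
    wg (insert a T) (Function.update s a j) = wg T s * (((ld T s a j : ℝ) + 1) / (2 * L)) := by
  have ha : a ∉ T := fun h => lt_irrefl _ (hT a h)
  unfold wg
  rw [prod_insert ha, Function.update_self, ld_upd hT j le_rfl, mul_comm]
  congr 1
  refine prod_congr rfl fun l hl => ?_
  rw [Function.update_of_ne (hT l hl).ne, ld_upd hT j (hT l hl).le]

/-- Kraft inequality of one row. -/
lemma kraft_row (hL : 1 ≤ L) (hgL : g ≤ L) (T : Finset (Fin L)) (s : Fin L → Fin g) (a : Fin L)
    (C : Finset (Fin g)) : ∑ j ∈ C, (((ld T s a j : ℝ) + 1) / (2 * L)) ≤ 1 := by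
  have hL0 : (0 : ℝ) < L := by exact_mod_cast hL
  rw [← sum_div, div_le_one (by positivity)]
  have h1 : ∑ j ∈ C, ld T s a j ≤ T.card := by
    unfold ld
    calc ∑ j ∈ C, (T.filter fun l' => l' < a ∧ s l' = j).card
        = (C.biUnion fun j => T.filter fun l' => l' < a ∧ s l' = j).card := by
          rw [card_biUnion]
          intro j _ j' _ hjj
          rw [Function.onFun, disjoint_left]
          intro l hl hl'
          exact hjj ((mem_filter.1 hl).2.2.symm.trans (mem_filter.1 hl').2.2)
      _ ≤ T.card := card_le_card (biUnion_subset.2 fun j _ => filter_subset _ _)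
  have h2 : T.card ≤ L := (card_le_univ T).trans (by rw [Fintype.card_fin])
  have h3 : C.card ≤ g := (card_le_univ C).trans (by rw [Fintype.card_fin])
  have h4 : ∑ j ∈ C, ((ld T s a j : ℝ) + 1) = ((∑ j ∈ C, ld T s a j : ℕ) : ℝ) + C.card := by
    push_cast
    rw [sum_add_distrib, sum_const, nsmul_eq_mul, mul_one]
  rw [h4]
  have h5 : ((∑ j ∈ C, ld T s a j : ℕ) : ℝ) ≤ L := by exact_mod_cast h1.trans h2
  have h6 : (C.card : ℝ) ≤ L := by exact_mod_cast h3.trans hgL
  linarith

lemma wg_nonneg (T : Finset (Fin L)) (s : Fin L → Fin g) : 0 ≤ wg T s := by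
  unfold wg
  exact prod_nonneg fun l _ => by positivity

/-- Boxes on rows, in terms of the fully active parts. -/
theorem kraft_st {G : SimpleGraph ν} {M X : ℝ} (hX : 0 ≤ X) (hL : 1 ≤ L) (hgL : g ≤ L) {D : ℕ}
    {F : Finset ι} {y : ι → Fin g → ν} {x : Fin L → ν} {P : Finset (Fin L)}
    (C : Fin L → Finset (Fin g))
    (hZ : ∀ T ⊆ P, T.Nonempty → ∀ s : Fin L → Fin g, (∀ l ∈ T, s l ∈ C l) →
      |∑ o ∈ F, ∏ l ∈ T, rf G M (x l) (s l) (C l ∩ af D T s l (s l)) (y o)| ≤ wg T s * X)
    (R : Finset (Fin L)) :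
    ∀ (T : Finset (Fin L)) (s : Fin L → Fin g), T ⊆ P → R ⊆ P → T.Nonempty →
      (∀ l ∈ T, ∀ r ∈ R, l < r) → (∀ l ∈ T, s l ∈ C l) →
      |∑ o ∈ F, (∏ l ∈ T, rf G M (x l) (s l) (C l ∩ af D T s l (s l)) (y o)) *
        ∏ l ∈ R, bx G M (C l) (x l) (y o)| ≤ 2 ^ R.card * (wg T s * X) := by
  refine Finset.induction_on_min R ?_ ?_
  · intro T s hT hR hne hlt hs
    simp only [prod_empty, mul_one, card_empty, pow_zero, one_mul]
    exact hZ T hT hne s hs
  · intro a R' hmin ih T s hT hR hne hlt hs
    have haR : a ∉ R' := fun h => lt_irrefl _ (hmin a h)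
    have hTa : ∀ l ∈ T, l < a := fun l hl => hlt l hl a (mem_insert_self _ _)
    have hR' : R' ⊆ P := (subset_insert _ _).trans hR
    rw [st_step G M D s hTa C x y _ haR]
    refine (abs_add_le _ _).trans ?_
    have h1 := ih T s hT hR' hne (fun l hl r hr => hlt l hl r (mem_insert_of_mem hr)) hs
    have h2 : ∀ j ∈ C a, |∑ o ∈ F, (∏ l ∈ insert a T,
        rf G M (x l) (Function.update s a j l) (C l ∩ af D (insert a T)
        (Function.update s a j) l (Function.update s a j l)) (y o)) *
        ∏ l ∈ R', bx G M (C l) (x l) (y o)| ≤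
        2 ^ R'.card * (wg T s * X) * (((ld T s a j : ℝ) + 1) / (2 * L)) := by
      intro j hj
      have h3 := ih (insert a T) (Function.update s a j)
        (insert_subset (hR (mem_insert_self _ _)) hT) hR' (insert_nonempty _ _)
        (fun l hl r hr => by
          rcases mem_insert.1 hl with rfl | hl
          · exact hmin r hr
          · exact hlt l hl r (mem_insert_of_mem hr))
        (fun l hl => by
          rcases mem_insert.1 hl with rfl | hl
          · rw [Function.update_self]; exact hj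
          · rw [Function.update_of_ne (hTa l hl).ne]; exact hs l hl)
      rw [wg_insert hTa] at h3
      refine h3.trans (le_of_eq ?_)
      ring
    have hw : 0 ≤ 2 ^ R'.card * (wg T s * X) :=
      mul_nonneg (by positivity) (mul_nonneg (wg_nonneg _ _) hX)
    have h4 : |∑ j ∈ C a, ∑ o ∈ F, (∏ l ∈ insert a T,
        rf G M (x l) (Function.update s a j l) (C l ∩ af D (insert a T)
        (Function.update s a j) l (Function.update s a j l)) (y o)) *
        ∏ l ∈ R', bx G M (C l) (x l) (y o)| ≤ 2 ^ R'.card * (wg T s * X) := by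
      refine (abs_sum_le_sum_abs _ _).trans ((sum_le_sum h2).trans ?_)
      rw [← mul_sum]
      exact mul_le_of_le_one_right hw (kraft_row hL hgL T s a (C a))
    rw [card_insert_of_notMem haR, pow_succ]
    linarith

theorem kraft_main {G : SimpleGraph ν} {M X : ℝ} (hX : 0 ≤ X) (hL : 1 ≤ L) (hgL : g ≤ L) {D : ℕ}
    {F : Finset ι} {y : ι → Fin g → ν} {x : Fin L → ν} {P : Finset (Fin L)}
    (C : Fin L → Finset (Fin g))
    (hZ : ∀ T ⊆ P, T.Nonempty → ∀ s : Fin L → Fin g, (∀ l ∈ T, s l ∈ C l) →
      |∑ o ∈ F, ∏ l ∈ T, rf G M (x l) (s l) (C l ∩ af D T s l (s l)) (y o)| ≤ wg T s * X)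
    (R : Finset (Fin L)) (hR : R ⊆ P) :
    |(∑ o ∈ F, ∏ l ∈ R, bx G M (C l) (x l) (y o)) - F.card| ≤ (2 ^ R.card - 1) * X := by
  have hL0 : (0 : ℝ) < L := by exact_mod_cast hL
  revert hR
  refine Finset.induction_on_min R ?_ ?_
  · intro _
    simp
  · intro a R' hmin ih hR
    have haR : a ∉ R' := fun h => lt_irrefl _ (hmin a h)
    have hR' : R' ⊆ P := (subset_insert _ _).trans hR
    have h1 := ih hR'
    rw [card_insert_of_notMem haR]
    rcases (C a).eq_empty_or_nonempty with he | ⟨j0, hj0⟩
    · have e1 : ∀ o, bx G M (C a) (x a) (y o) = 1 := by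
        intro o
        unfold bx
        rw [he, prod_empty]
      have e2 : ∀ o ∈ F, ∏ l ∈ insert a R', bx G M (C l) (x l) (y o) =
          ∏ l ∈ R', bx G M (C l) (x l) (y o) := by
        intro o _
        rw [prod_insert haR, e1, one_mul]
      rw [sum_congr rfl e2]
      refine h1.trans (mul_le_mul_of_nonneg_right ?_ hX)
      exact sub_le_sub_right (pow_le_pow_right₀ (by norm_num) (Nat.le_succ R'.card)) 1
    · have h2 := st_step G M D (T1 := ∅) (fun _ => j0) (a := a) (fun l hl => absurd hl (notMem_empty _))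
        C x y F haR
      simp only [prod_empty, one_mul, insert_empty_eq] at h2
      rw [h2]
      have h3 : ∀ j ∈ C a, |∑ o ∈ F, (∏ l ∈ ({a} : Finset (Fin L)),
          rf G M (x l) (Function.update (fun _ => j0) a j l) (C l ∩ af D {a}
          (Function.update (fun _ => j0) a j) l (Function.update (fun _ => j0) a j l)) (y o)) *
          ∏ l ∈ R', bx G M (C l) (x l) (y o)| ≤
          2 ^ R'.card * X * (((ld (∅ : Finset (Fin L)) (fun _ => j0) a j : ℝ) + 1) / (2 * L)) := by
        intro j hj
        have h4 := kraft_st hX hL hgL (D := D) (F := F) (y := y) (x := x) C hZ R' {a}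
          (Function.update (fun _ => j0) a j)
          (singleton_subset_iff.2 (hR (mem_insert_self _ _))) hR' (singleton_nonempty _)
          (fun l hl r hr => by
            rw [mem_singleton.1 hl]
            exact hmin r hr)
          (fun l hl => by
            rw [mem_singleton.1 hl, Function.update_self]
            exact hj)
        have h5 := wg_insert (T := ∅) (s := fun _ : Fin L => j0) (a := a)
          (fun l hl => absurd hl (notMem_empty _)) j
        rw [insert_empty_eq] at h5
        rw [h5] at h4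
        have h6 : wg (∅ : Finset (Fin L)) (fun _ : Fin L => j0) = 1 := by
          unfold wg; rw [prod_empty]
        rw [h6, one_mul] at h4
        refine h4.trans (le_of_eq ?_)
        ring
      have h5 : |∑ j ∈ C a, ∑ o ∈ F, (∏ l ∈ ({a} : Finset (Fin L)),
          rf G M (x l) (Function.update (fun _ => j0) a j l) (C l ∩ af D {a}
          (Function.update (fun _ => j0) a j) l (Function.update (fun _ => j0) a j l)) (y o)) *
          ∏ l ∈ R', bx G M (C l) (x l) (y o)| ≤ 2 ^ R'.card * X := by
        refine (abs_sum_le_sum_abs _ _).trans ((sum_le_sum h3).trans ?_)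
        rw [← mul_sum]
        exact mul_le_of_le_one_right (by positivity) (kraft_row hL hgL ∅ (fun _ => j0) a (C a))
      rw [add_sub_right_comm]
      refine (abs_add_le _ _).trans ((add_le_add h1 h5).trans (le_of_eq ?_))
      ring

end Pool.Agent.H35.RO
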