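import Pool.Agent.H82.RD.Lvl
import Mathlib

/-!
MP_ba3460_lc, linear exponent in the dense range (/team-store/H80_RLD.md, facts F4-F6): removal of the rows of
high level, weights of the servers, dominant level (helper35).
-/

set_option autoImplicit false
set_option linter.unusedSectionVars false

open Finset

namespace Pool.Agent.H35.RO

open Pool.Agent.H82.RD

variable {L g : ℕ} {D : ℕ} {T : Finset (Fin L)} {s : Fin L → Fin g}

lemma zz_lt (hD : 1 ≤ D) {e e' : ℕ} (h : e < e') : zz D e < zz D e' := by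
  have h1 := Lvl_zz_mono D (Nat.succ_le_of_lt h)
  have h2 := Lvl_zz_succ D e
  have h3 := Nat.one_le_pow e D hD
  rw [Nat.succ_eq_add_one] at h1
  omega

lemma zz_le_iff (hD : 1 ≤ D) {e e' : ℕ} : zz D e ≤ zz D e' ↔ e ≤ e' := by
  constructor
  · intro h
    by_contra hc
    have := zz_lt hD (not_le.1 hc)
    omega
  · exact fun h => Lvl_zz_mono D h

lemma lv_min (hD : 1 ≤ D) (n E : ℕ) : lv D (min n (zz D E)) = min (lv D n) E := by
  apply le_antisymm
  · have h1 := (lv_iff hD (lv D (min n (zz D E))) (min n (zz D E))).1 le_rfl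
    refine le_min ((lv_iff hD _ _).2 (h1.trans (min_le_left _ _))) ?_
    exact (zz_le_iff hD).1 (h1.trans (min_le_right _ _))
  · rw [lv_iff hD]
    refine le_min ((Lvl_zz_mono D (min_le_left _ _)).trans ((lv_iff hD _ _).1 le_rfl)) ?_
    exact Lvl_zz_mono D (min_le_right _ _)

lemma low_eq (hD : 1 ≤ D) (E : ℕ) :
    T \ Tt D T s E = T.filter fun i => ld T s i (s i) < zz D E := by
  ext i
  rw [mem_sdiff, Lvl_mem_Tt hD, mem_filter, ← not_le]
  tauto

/-- Loads after the removal of the rows of level at least `E`. -/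
lemma ld_low (hD : 1 ≤ D) (E : ℕ) (l : Fin L) (j : Fin g) :
    ld (T \ Tt D T s E) s l j = min (ld T s l j) (zz D E) := by
  rw [low_eq hD]
  have h1 : ∀ i : Fin L, i < l → ld (T.filter (· < l)) s i j = ld T s i j := by
    intro i hi
    unfold ld
    congr 1
    ext a
    simp only [mem_filter]
    constructor
    · rintro ⟨⟨h1, h2⟩, h3, h4⟩
      exact ⟨h1, h3, h4⟩
    · rintro ⟨h1, h3, h4⟩
      exact ⟨⟨h1, h3.trans hi⟩, h3, h4⟩
  have h2 := Lvl_card (T.filter (· < l)) s j 0 (zz D E)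
  have h3 : ((T.filter (· < l)).filter fun i => s i = j).card = ld T s l j := by
    unfold ld
    congr 1
    ext a
    simp only [mem_filter]
    tauto
  rw [h3, Nat.sub_zero, min_comm] at h2
  rw [← h2]
  unfold ld
  congr 1
  ext a
  simp only [mem_filter]
  constructor
  · rintro ⟨⟨h4, h5⟩, h6, h7⟩
    subst h7
    refine ⟨⟨h4, h6⟩, rfl, Nat.zero_le _, ?_⟩
    have := h1 a h6
    unfold ld at this
    rw [this]
    exact h5
  · rintro ⟨⟨h4, h6⟩, h7, -, h5⟩
    subst h7
    refine ⟨⟨h4, ?_⟩, h6, rfl⟩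
    have := h1 a h6
    unfold ld at this
    rw [this] at h5
    exact h5

lemma lv_ld_low (hD : 1 ≤ D) (E : ℕ) (l : Fin L) (j : Fin g) :
    lv D (ld (T \ Tt D T s E) s l j) = min (lv D (ld T s l j)) E := by
  rw [ld_low hD, lv_min hD]

lemma low_lt {E : ℕ} {l : Fin L} (hl : l ∈ T \ Tt D T s E) :
    lv D (ld T s l (s l)) < E := by
  rw [mem_sdiff] at hl
  by_contra hc
  exact hl.2 (mem_filter.2 ⟨hl.1, not_lt.1 hc⟩)

/-- The order at a row of low level does not change. -/
lemma af_low (hD : 1 ≤ D) {E : ℕ} {l : Fin L} (hl : l ∈ T \ Tt D T s E) :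
    af D (T \ Tt D T s E) s l (s l) = af D T s l (s l) := by
  have h := low_lt hl
  unfold af
  ext j
  simp only [mem_filter, mem_univ, true_and]
  rw [lv_ld_low hD, lv_ld_low hD, min_eq_left h.le]
  constructor
  · rintro (h1 | ⟨h1, h2⟩)
    · exact Or.inl (lt_of_lt_of_le h1 (min_le_left _ _))
    · right
      refine ⟨?_, h2⟩
      rcases min_choice (lv D (ld T s l j)) E with h3 | h3 <;> rw [h3] at h1
      · exact h1
      · omega
  · rintro (h1 | ⟨h1, h2⟩)
    · exact Or.inl (lt_min h1 h)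
    · right
      exact ⟨by rw [min_eq_left (by omega)]; exact h1, h2⟩

lemma Tt_low (hD : 1 ≤ D) (E e : ℕ) :
    Tt D (T \ Tt D T s E) s e = if e ≤ E then Tt D T s e \ Tt D T s E else ∅ := by
  ext l
  split_ifs with he
  · rw [mem_sdiff]
    unfold Tt
    rw [mem_filter, mem_sdiff, mem_filter, mem_filter]
    constructor
    · rintro ⟨⟨h1, h2⟩, h3⟩
      have h4 := lv_ld_low (T := T) (s := s) hD E l (s l)
      unfold Tt at h4
      rw [h4] at h3
      exact ⟨⟨h1, h3.trans (min_le_left _ _)⟩, h2⟩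
    · rintro ⟨⟨h1, h2⟩, h3⟩
      have h4 := lv_ld_low (T := T) (s := s) hD E l (s l)
      unfold Tt at h4
      refine ⟨⟨h1, h3⟩, ?_⟩
      rw [h4]
      exact le_min h2 he
  · constructor
    · intro h
      unfold Tt at h
      rw [mem_filter] at h
      have h4 := lv_ld_low (T := T) (s := s) hD E l (s l)
      unfold Tt at h4
      rw [h4] at h
      have := h.2.trans (min_le_right _ _)
      omega
    · intro h
      exact absurd h (notMem_empty _)

lemma card_low (hD : 1 ≤ D) (E : ℕ) (j : Fin g) :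
    ((T \ Tt D T s E).filter fun l => s l = j).card =
      min (T.filter fun l => s l = j).card (zz D E) := by
  have h2 := Lvl_card T s j 0 (zz D E)
  rw [Nat.sub_zero, min_comm] at h2
  rw [← h2, low_eq hD]
  congr 1
  ext l
  simp only [mem_filter]
  constructor
  · rintro ⟨⟨h1, h4⟩, h3⟩
    subst h3
    exact ⟨h1, rfl, Nat.zero_le _, h4⟩
  · rintro ⟨h1, h3, -, h4⟩
    subst h3
    exact ⟨⟨h1, h4⟩, rfl⟩

lemma Jt_low (hD : 1 ≤ D) {E e : ℕ} (he : e ≤ E) :
    Jt D (T \ Tt D T s E) s e = Jt D T s e := by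
  ext j
  rw [Lvl_mem_Jt, Lvl_mem_Jt, card_low hD]
  have := Lvl_zz_mono D he
  constructor
  · exact fun h => h.trans (min_le_left _ _)
  · exact fun h => le_min h this

/-! ### Weights -/

/-- The weight of the servers `s` on the rows `T`. -/
noncomputable def wg (T : Finset (Fin L)) (s : Fin L → Fin g) : ℝ :=
  ∏ l ∈ T, ((ld T s l (s l) : ℝ) + 1) / (2 * L)

lemma prod_fac (T : Finset (Fin L)) (s : Fin L → Fin g) (j : Fin g) :
    ∏ l ∈ T.filter (fun l => s l = j), (ld T s l (s l) + 1) =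
      ((T.filter fun l => s l = j).card).factorial := by
  have h1 := Lvl_image_ld T s j
  rw [← prod_range_add_one_eq_factorial, ← h1, prod_image]
  · refine prod_congr rfl fun l hl => ?_
    rw [(mem_filter.1 hl).2]
  · intro i hi l hl h
    rw [mem_coe, mem_filter] at hi hl
    exact Lvl_ld_inj hi.1 hl.1 hi.2 hl.2 h

lemma pow_le_fac (L m : ℕ) : (2 * (L : ℝ)) ^ m ≤ 8 ^ L * (m.factorial : ℝ) := by
  have h1 := Real.pow_div_factorial_le_exp (2 * (L : ℝ)) (by positivity) m
  have h2 : (0 : ℝ) < m.factorial := by exact_mod_cast Nat.factorial_pos m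
  rw [div_le_iff₀ h2] at h1
  refine h1.trans (mul_le_mul_of_nonneg_right ?_ h2.le)
  have h3 : Real.exp (2 * (L : ℝ)) = (Real.exp 1 ^ 2) ^ L := by
    rw [← pow_mul, ← Real.exp_nat_mul]
    push_cast
    ring_nf
  rw [h3]
  refine pow_le_pow_left₀ (by positivity) ?_ L
  have h4 := Real.exp_one_lt_d9
  have h5 := Real.exp_pos 1
  nlinarith

lemma wg_pos (hL : 1 ≤ L) (T : Finset (Fin L)) (s : Fin L → Fin g) : 0 < wg T s := by
  unfold wg
  have : (0 : ℝ) < L := by exact_mod_cast hL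
  exact prod_pos fun l _ => by positivity

lemma ld_le_card (T : Finset (Fin L)) (s : Fin L → Fin g) (l : Fin L) (j : Fin g) (hl : l ∈ T) :
    ld T s l j + 1 ≤ L := by
  have h1 : ld T s l j ≤ (T.filter (· < l)).card := by
    unfold ld
    refine card_le_card fun i hi => ?_
    rw [mem_filter] at hi ⊢
    exact ⟨hi.1, hi.2.1⟩
  have h2 : (T.filter (· < l)).card < T.card := by
    refine card_lt_card ⟨filter_subset _ _, fun h => ?_⟩
    have := h hl
    rw [mem_filter] at this
    exact lt_irrefl _ this.2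
  have h3 : T.card ≤ L := (card_le_univ T).trans (by rw [Fintype.card_fin])
  omega

/-- The weight of the rows of low level. -/
lemma wg_low (hD : 1 ≤ D) (hL : 1 ≤ L) (E : ℕ) (S : Finset (Fin g))
    (hS : ∀ l ∈ Tt D T s E, s l ∈ S) :
    wg (T \ Tt D T s E) s ≤ 8 ^ (L * S.card) * wg T s := by
  have hL0 : (0 : ℝ) < L := by exact_mod_cast hL
  have hf1 : ∀ l ∈ T, ((ld T s l (s l) : ℝ) + 1) / (2 * L) ≤ 1 := by
    intro l hl
    rw [div_le_one (by positivity)]
    have h1 := ld_le_card T s l (s l) hl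
    have h2 : ((ld T s l (s l) + 1 : ℕ) : ℝ) ≤ L := by exact_mod_cast h1
    push_cast at h2
    linarith
  have hf0 : ∀ l, 0 < ((ld T s l (s l) : ℝ) + 1) / (2 * L) := fun l => by positivity
  -- the factors of the low rows do not change
  have h1 : wg (T \ Tt D T s E) s = ∏ l ∈ T \ Tt D T s E, ((ld T s l (s l) : ℝ) + 1) / (2 * L) := by
    unfold wg
    refine prod_congr rfl fun l hl => ?_
    rw [ld_low hD]
    have h2 := hl
    rw [low_eq hD, mem_filter] at h2
    rw [min_eq_left h2.2.le]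
  have h2 : wg T s = (∏ l ∈ T \ Tt D T s E, ((ld T s l (s l) : ℝ) + 1) / (2 * L)) *
      ∏ l ∈ Tt D T s E, ((ld T s l (s l) : ℝ) + 1) / (2 * L) := by
    unfold wg
    rw [prod_sdiff (Tt_sub E)]
  rw [h2, h1]
  have h3 : (8 : ℝ) ^ (L * S.card) * ((∏ l ∈ T \ Tt D T s E, ((ld T s l (s l) : ℝ) + 1) / (2 * L)) *
      ∏ l ∈ Tt D T s E, ((ld T s l (s l) : ℝ) + 1) / (2 * L)) =
      (∏ l ∈ T \ Tt D T s E, ((ld T s l (s l) : ℝ) + 1) / (2 * L)) *
      (8 ^ (L * S.card) * ∏ l ∈ Tt D T s E, ((ld T s l (s l) : ℝ) + 1) / (2 * L)) := by ring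
  rw [h3]
  refine le_mul_of_one_le_right (prod_nonneg fun l _ => (hf0 l).le) ?_
  -- column by column
  have h4 : ∏ l ∈ Tt D T s E, ((ld T s l (s l) : ℝ) + 1) / (2 * L) =
      ∏ j ∈ S, ∏ l ∈ (Tt D T s E).filter (fun l => s l = j), ((ld T s l (s l) : ℝ) + 1) / (2 * L) :=
    (prod_fiberwise_of_maps_to hS _).symm
  rw [h4, pow_mul, ← prod_const, ← prod_mul_distrib]
  have h1p : ∀ (S' : Finset (Fin g)) (F : Fin g → ℝ), (∀ j ∈ S', 1 ≤ F j) → 1 ≤ ∏ j ∈ S', F j := by
    intro S' F hF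
    calc (1 : ℝ) = ∏ _j ∈ S', (1 : ℝ) := by rw [prod_const_one]
      _ ≤ ∏ j ∈ S', F j := prod_le_prod (fun _ _ => zero_le_one) hF
  refine h1p _ _ fun j _ => ?_
  have h5 : ∏ l ∈ T.filter (fun l => s l = j), ((ld T s l (s l) : ℝ) + 1) / (2 * L) ≤
      ∏ l ∈ (Tt D T s E).filter (fun l => s l = j), ((ld T s l (s l) : ℝ) + 1) / (2 * L) := by
    have hsub : (Tt D T s E).filter (fun l => s l = j) ⊆ T.filter (fun l => s l = j) :=
      filter_subset_filter _ (Tt_sub E)
    rw [← prod_sdiff hsub]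
    refine mul_le_of_le_one_left (prod_nonneg fun l _ => (hf0 l).le) ?_
    exact prod_le_one (fun l _ => (hf0 l).le) fun l hl =>
      hf1 l (mem_filter.1 (mem_sdiff.1 hl).1).1
  refine le_trans ?_ (mul_le_mul_of_nonneg_left h5 (by positivity))
  have h6 : ∏ l ∈ T.filter (fun l => s l = j), ((ld T s l (s l) : ℝ) + 1) / (2 * L) =
      (((T.filter fun l => s l = j).card).factorial : ℝ) /
        (2 * L) ^ (T.filter fun l => s l = j).card := by
    rw [prod_div_distrib, prod_const, ← prod_fac T s j]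
    push_cast
    rfl
  rw [h6, ← mul_div_assoc, le_div_iff₀ (by positivity), one_mul]
  exact pow_le_fac _ _

/-! ### The dominant level -/

lemma G_card_zero (hD : 1 ≤ D) {i : ℕ} (h : T.card ≤ i) :
    (Tt D T s i \ Tt D T s (i + 1)).card = 0 := by
  rw [Tt_end hD i h, empty_sdiff, card_empty]

lemma sum_G (n : ℕ) :
    ∑ i ∈ range n, (Tt D T s i \ Tt D T s (i + 1)).card = (T \ Tt D T s n).card := by
  induction n with
  | zero => simp [Tt_zero]
  | succ n ih =>
    rw [sum_range_succ, ih]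
    have h1 : T \ Tt D T s (n + 1) = (T \ Tt D T s n) ∪ (Tt D T s n \ Tt D T s (n + 1)) := by
      ext l
      have h2 := @Tt_succ L g D T s n l
      have h3 := @Tt_sub L g D T s n l
      simp only [mem_union, mem_sdiff]
      tauto
    rw [h1, card_union_of_disjoint]
    rw [disjoint_left]
    intro l hl hl'
    exact (mem_sdiff.1 hl).2 (mem_sdiff.1 hl').1

/-- Some level dominates all the others. -/
theorem dominant (hD : 1 ≤ D) (hT : T.Nonempty) (s : Fin L → Fin g) :
    ∃ f, f ≤ T.card ∧ 1 ≤ (Tt D T s f \ Tt D T s (f + 1)).card ∧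
      ∀ i, (Tt D T s i \ Tt D T s (i + 1)).card * 2 ^ f ≤
        2 ^ i * (Tt D T s f \ Tt D T s (f + 1)).card := by
  set a : ℕ → ℕ := fun i => (Tt D T s i \ Tt D T s (i + 1)).card with ha
  obtain ⟨f, hf, hmax⟩ := exists_max_image (range (T.card + 1)) (fun i => (a i : ℝ) / 2 ^ i)
    ⟨0, mem_range.2 (by omega)⟩
  have h1 : ∀ i, a i * 2 ^ f ≤ 2 ^ i * a f := by
    intro i
    rcases Nat.lt_or_ge i (T.card + 1) with h | h
    · have h2 := hmax i (mem_range.2 h)
      rw [div_le_div_iff₀ (by positivity) (by positivity)] at h2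
      have h3 : ((a i * 2 ^ f : ℕ) : ℝ) ≤ ((a f * 2 ^ i : ℕ) : ℝ) := by
        push_cast
        exact h2
      have h4 : a i * 2 ^ f ≤ a f * 2 ^ i := by exact_mod_cast h3
      rw [mul_comm (2 ^ i)]
      exact h4
    · have h2 : a i = 0 := G_card_zero hD (by omega)
      rw [h2, zero_mul]
      exact Nat.zero_le _
  refine ⟨f, by have := mem_range.1 hf; omega, ?_, h1⟩
  by_contra hc
  have h2 : a f = 0 := by
    have : ¬ 1 ≤ a f := hc
    omega
  have h3 : ∀ i, a i = 0 := by
    intro i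
    have h4 := h1 i
    rw [h2, mul_zero, Nat.le_zero, mul_eq_zero] at h4
    rcases h4 with h4 | h4
    · exact h4
    · exact absurd h4 (by positivity)
  have h5 := sum_G (D := D) (T := T) (s := s) T.card
  rw [Tt_end hD _ le_rfl, sdiff_empty, sum_eq_zero fun i _ => h3 i] at h5
  have := hT.card_pos
  omega

/-- The number of rows of a balanced profile. -/
theorem bal_card (hD : 1 ≤ D) {f e : ℕ} (h : ∀ i, (Tt D T s i \ Tt D T s (i + 1)).card * 2 ^ f ≤
      2 ^ i * (Tt D T s f \ Tt D T s (f + 1)).card) (he : Tt D T s (f + e) = ∅) :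
    T.card ≤ 2 ^ e * (Tt D T s f \ Tt D T s (f + 1)).card := by
  have h1 := sum_G (D := D) (T := T) (s := s) (f + e)
  rw [he, sdiff_empty] at h1
  have h2 : T.card * 2 ^ f ≤ 2 ^ (f + e) * (Tt D T s f \ Tt D T s (f + 1)).card := by
    rw [← h1, sum_mul]
    refine (sum_le_sum fun i _ => h i).trans ?_
    rw [← sum_mul]
    refine Nat.mul_le_mul_right _ ?_
    have h3 : ∀ n : ℕ, ∑ i ∈ range n, 2 ^ i ≤ 2 ^ n := by
      intro n
      induction n with
      | zero => simp
      | succ n ih => rw [sum_range_succ, pow_succ]; omega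
    exact h3 _
  have h3 : 0 < 2 ^ f := by positivity
  refine Nat.le_of_mul_le_mul_right ?_ h3
  refine h2.trans (le_of_eq ?_)
  rw [pow_add]
  ring

/-- The positions of the rows of level at least `f + e + 1`. -/
theorem bal_S (hD : 1 ≤ D) {f : ℕ} (e : ℕ) (h : ∀ i, (Tt D T s i \ Tt D T s (i + 1)).card * 2 ^ f ≤
      2 ^ i * (Tt D T s f \ Tt D T s (f + 1)).card) :
    (Jt D T s (f + e + 1)).card * D ^ (f + e) ≤ 2 ^ e * (Tt D T s f \ Tt D T s (f + 1)).card := by
  refine (Jt_card hD (f + e)).trans ?_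
  have h1 := h (f + e)
  have h3 : 0 < 2 ^ f := by positivity
  refine Nat.le_of_mul_le_mul_right (h1.trans (le_of_eq ?_)) h3
  rw [pow_add]
  ring

end Pool.Agent.H35.RO
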