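import Pool.Agent.H35.RO.Low
import Pool.Agent.H82.RD.Spt

/-!
MP_ba3460_lc, linear exponent in the dense range (/team-store/H80_RLD.md, section 2): the positions `S` are
prescribed, the factors at `S` are constants (helper35).
-/

set_option autoImplicit false
set_option linter.unusedSectionVars false

open Finset

namespace Pool.Agent.H35.RO

open Pool.Agent.H82.RD

variable {ν ι : Type} [Fintype ν] [DecidableEq ν] {L g : ℕ}

/-- A row with the positions `S` prescribed: the centred adjacency is dropped if the server lies in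
`S`, the box is taken off `S`. -/
noncomputable def rs (G : SimpleGraph ν) (M : ℝ) (v : ν) (j0 : Fin g) (C S : Finset (Fin g))
    (yo : Fin g → ν) : ℝ := (if j0 ∈ S then 1 else HH G M v (yo j0)) * bx G M (C \ S) v yo

lemma bx_le_pow {G : SimpleGraph ν} {M : ℝ} (hM : 0 ≤ M) (C : Finset (Fin g)) (v : ν)
    (yo : Fin g → ν) : bx G M C v yo ≤ M ^ C.card := by
  unfold bx
  rw [← prod_const]
  refine prod_le_prod (fun j _ => ?_) (fun j _ => ?_)
  · split_ifs
    · exact hM
    · exact le_rfl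
  · split_ifs
    · exact le_rfl
    · exact hM

/-- The constant factor of a row at the positions `S`. -/
lemma rs_split {G : SimpleGraph ν} {M : ℝ} (v : ν) (j0 : Fin g) (C S : Finset (Fin g))
    (om yo : Fin g → ν) (h : ∀ j ∈ S, yo j = om j) :
    rf G M v j0 C yo =
      ((if j0 ∈ S then HH G M v (om j0) else 1) * bx G M (C ∩ S) v om) * rs G M v j0 C S yo := by
  have h1 : bx G M C v yo = bx G M (C ∩ S) v om * bx G M (C \ S) v yo := by
    have h2 : bx G M (C ∩ S) v om = bx G M (C ∩ S) v yo := by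
      unfold bx
      refine prod_congr rfl fun j hj => ?_
      rw [h j (mem_inter.1 hj).2]
    rw [h2]
    unfold bx
    rw [← prod_union]
    · rw [union_comm, sdiff_union_inter]
    · exact (disjoint_sdiff_inter C S).symm
  unfold rf rs
  rw [h1]
  split_ifs with hj
  · rw [h j0 hj]; ring
  · ring

lemma rs_const_le {G : SimpleGraph ν} {M : ℝ} (hM : 1 ≤ M) (v : ν) (j0 : Fin g)
    (C S : Finset (Fin g)) (hC : j0 ∉ C) (om : Fin g → ν) :
    |(if j0 ∈ S then HH G M v (om j0) else 1) * bx G M (C ∩ S) v om| ≤ M ^ S.card := by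
  have hM0 : (0 : ℝ) ≤ M := zero_le_one.trans hM
  have hb := bx_le_pow (G := G) hM0 (C ∩ S) v om
  have hb0 := bx_nonneg (G := G) hM0 (C ∩ S) v om
  rw [abs_mul, abs_of_nonneg hb0]
  split_ifs with hj
  · have h1 : |HH G M v (om j0)| * bx G M (C ∩ S) v om ≤ M * M ^ (C ∩ S).card :=
      mul_le_mul (abs_HH_le hM _ _) hb hb0 hM0
    refine h1.trans ?_
    rw [← pow_succ']
    refine pow_le_pow_right₀ hM ?_
    have h2 : insert j0 (C ∩ S) ⊆ S := insert_subset hj inter_subset_right
    have h3 : j0 ∉ C ∩ S := fun h => hC (mem_inter.1 h).1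
    rw [← card_insert_of_notMem h3]
    exact card_le_card h2
  · rw [abs_one, one_mul]
    exact hb.trans (pow_le_pow_right₀ hM (card_le_card inter_subset_right))

/-- The positions `S` are prescribed. -/
theorem prescribe {G : SimpleGraph ν} {M : ℝ} (hM : 1 ≤ M)
    {O : Finset ι} {y : ι → Fin g → ν} {Out : Finset ν} (hout : ∀ o ∈ O, ∀ j, y o j ∈ Out)
    (A S : Finset (Fin g)) (q : Fin g → ν) (hAS : Disjoint A S) (T : Finset (Fin L))
    (s : Fin L → Fin g) (Cf : Fin L → Finset (Fin g)) (hsf : ∀ l ∈ T, s l ∉ Cf l)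
    (x : Fin L → ν) :
    |∑ o ∈ fam O y A q, ∏ l ∈ T, rf G M (x l) (s l) (Cf l) (y o)| ≤
      M ^ (T.card * S.card) *
      ∑ om ∈ Fintype.piFinset (fun j => if j ∈ S then Out else {q j}),
        |∑ o ∈ fam O y (A ∪ S) om, ∏ l ∈ T, rs G M (x l) (s l) (Cf l) S (y o)| := by
  have h1 := split_bound (L := L) (G := G) hM hout A S q hAS ∅ s Cf
    (fun l hl => absurd hl (notMem_empty _)) (fun l hl => absurd hl (notMem_empty _))
    (fun o => ∏ l ∈ T, rf G M (x l) (s l) (Cf l) (y o)) x
  simp only [prod_empty, mul_one, card_empty, zero_mul, pow_zero, one_mul] at h1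
  refine h1.trans ?_
  rw [mul_sum]
  refine sum_le_sum fun om _ => ?_
  have h2 : ∀ o ∈ fam O y (A ∪ S) om, ∏ l ∈ T, rf G M (x l) (s l) (Cf l) (y o) =
      (∏ l ∈ T, ((if s l ∈ S then HH G M (x l) (om (s l)) else 1) *
        bx G M (Cf l ∩ S) (x l) om)) * ∏ l ∈ T, rs G M (x l) (s l) (Cf l) S (y o) := by
    intro o ho
    rw [← prod_mul_distrib]
    refine prod_congr rfl fun l _ => ?_
    exact rs_split _ _ _ _ om _ fun j hj => (mem_fam.1 ho).2 j (mem_union_right _ hj)
  rw [sum_congr rfl h2, ← mul_sum, abs_mul]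
  refine mul_le_mul_of_nonneg_right ?_ (abs_nonneg _)
  rw [abs_prod, mul_comm T.card, pow_mul, ← prod_const]
  exact prod_le_prod (fun l _ => abs_nonneg _) fun l hl => rs_const_le hM _ _ _ _ (hsf l hl) _

/-- The positions `S` are prescribed, and the rows `T3` with all positions in `S` are removed. -/
theorem removal {G : SimpleGraph ν} {M : ℝ} (hM : 1 ≤ M)
    {O : Finset ι} {y : ι → Fin g → ν} {Out : Finset ν} (hout : ∀ o ∈ O, ∀ j, y o j ∈ Out)
    (A S : Finset (Fin g)) (q : Fin g → ν) (hAS : Disjoint A S) (T T3 : Finset (Fin L))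
    (hT3 : T3 ⊆ T) (s : Fin L → Fin g) (Cf : Fin L → Finset (Fin g)) (hsf : ∀ l ∈ T, s l ∉ Cf l)
    (hS : ∀ l ∈ T3, insert (s l) (Cf l) ⊆ S) (x : Fin L → ν) :
    |∑ o ∈ fam O y A q, ∏ l ∈ T, rf G M (x l) (s l) (Cf l) (y o)| ≤
      M ^ (T.card * S.card) *
      ∑ om ∈ Fintype.piFinset (fun j => if j ∈ S then Out else {q j}),
        |∑ o ∈ fam O y (A ∪ S) om, ∏ l ∈ T \ T3, rs G M (x l) (s l) (Cf l) S (y o)| := by
  refine (prescribe hM hout A S q hAS T s Cf hsf x).trans (le_of_eq ?_)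
  congr 1
  refine sum_congr rfl fun om _ => ?_
  congr 1
  refine sum_congr rfl fun o _ => ?_
  rw [← prod_sdiff hT3]
  have h1 : ∏ l ∈ T3, rs G M (x l) (s l) (Cf l) S (y o) = 1 := by
    refine prod_eq_one fun l hl => ?_
    have h2 := hS l hl
    unfold rs bx
    rw [if_pos (h2 (mem_insert_self _ _)), sdiff_eq_empty_iff_subset.2
      ((subset_insert _ _).trans h2), prod_empty, one_mul]
  rw [h1, mul_one]

end Pool.Agent.H35.RO
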